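import Mathlib

set_option autoImplicit false

namespace Pool.Agent.Results.MP_28dfab_co.EightElements

/-- The largest size of a chain. -/
noncomputable def height (P : Type) [PartialOrder P] : ℕ :=
  sSup {n | ∃ C : Finset P, IsChain (· ≤ ·) (C : Set P) ∧ C.card = n}

/-- `d P k` is the largest size of a union of `k` pairwise disjoint antichains of `P`. -/
noncomputable def d (P : Type) [PartialOrder P] [DecidableEq P] (k : ℕ) : ℕ :=
  sSup {n | ∃ A : Fin k → Finset P, (∀ i, IsAntichain (· ≤ ·) (A i : Set P)) ∧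
    (∀ i j, i ≠ j → Disjoint (A i) (A j)) ∧ (Finset.univ.biUnion A).card = n}

/-- `P` has a partition into antichains `A 1, ..., A h`, where `h` is the height, such that
`|A 1 ∪ ... ∪ A k| = d_k(P)` for `k = 1, ..., h`. -/
def DDecomposable (P : Type) [PartialOrder P] [DecidableEq P] : Prop :=
  ∃ A : ℕ → Finset P, (∀ i ∈ Finset.Icc 1 (height P), IsAntichain (· ≤ ·) (A i : Set P)) ∧
    (∀ i ∈ Finset.Icc 1 (height P), ∀ j ∈ Finset.Icc 1 (height P), i ≠ j →
      Disjoint (A i) (A j)) ∧
    (∀ x : P, ∃ i ∈ Finset.Icc 1 (height P), x ∈ A i) ∧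
    ∀ k ∈ Finset.Icc 1 (height P), ((Finset.Icc 1 k).biUnion A).card = d P k

/-- The ground set of the poset `P₆`: `0, 1, 2` stand for `x₁, x₂, x₃` and `3, 4, 5` for
`y₁, y₂, y₃`. -/
structure P6 where
  val : Fin 6
deriving DecidableEq

/-- The strict comparabilities `x_i < y₂` and `x₂ < y_i`. -/
def lt6 (a b : Fin 6) : Bool :=
  (b == 4 && (a == 0 || a == 1 || a == 2)) || (a == 1 && (b == 3 || b == 4 || b == 5))

instance : PartialOrder P6 where
  le a b := (a.val == b.val || lt6 a.val b.val) = true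
  le_refl := by
    rintro ⟨a⟩
    revert a
    decide
  le_trans := by
    rintro ⟨a⟩ ⟨b⟩ ⟨c⟩
    revert a b c
    decide
  le_antisymm := by
    rintro ⟨a⟩ ⟨b⟩
    revert a b
    decide

/-- The ground set of the counterexample. -/
structure P8 where
  val : Fin 8
deriving DecidableEq

/-- The strict comparabilities of the counterexample. -/
def lt8 (a b : Fin 8) : Bool :=
  (b == 4 && a == 2) || (b == 5 && a == 2) || (b == 6 && (a == 2 || a == 3)) ||
    (b == 7 && (a == 0 || a == 1 || a == 3))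

instance : PartialOrder P8 where
  le a b := (a.val == b.val || lt8 a.val b.val) = true
  le_refl := by
    rintro ⟨a⟩
    revert a
    decide
  le_trans := by
    rintro ⟨a⟩ ⟨b⟩ ⟨c⟩
    revert a b c
    decide
  le_antisymm := by
    rintro ⟨a⟩ ⟨b⟩
    revert a b
    decide

instance : Fintype P8 := Fintype.ofEquiv (Fin 8) ⟨P8.mk, P8.val, fun _ => rfl, fun _ => rfl⟩

instance (a b : P8) : Decidable (a ≤ b) :=
  inferInstanceAs (Decidable ((a.val == b.val || lt8 a.val b.val) = true))

instance (a b : P6) : Decidable (a ≤ b) :=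
  inferInstanceAs (Decidable ((a.val == b.val || lt6 a.val b.val) = true))

/-- Boolean test for antichains of `P8`. -/
def anti (S : Finset (Fin 8)) : Bool := decide (∀ a ∈ S, ∀ b ∈ S, ¬ lt8 a b)

lemma key : ∀ S : Finset (Fin 8), anti S = true → 5 ≤ S.card → anti Sᶜ = false := by
  decide +kernel

lemma anti_of {S : Finset P8} (h : IsAntichain (· ≤ ·) (S : Set P8)) :
    anti (S.image P8.val) = true := by
  unfold anti
  rw [decide_eq_true_eq]
  intro a ha b hb hlt
  rw [Finset.mem_image] at ha hb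
  obtain ⟨a', ha', rfl⟩ := ha
  obtain ⟨b', hb', rfl⟩ := hb
  have hne : a' ≠ b' := by
    rintro rfl
    revert hlt
    generalize a'.val = x
    revert x
    decide
  refine h ha' hb' hne ?_
  show (a'.val == b'.val || lt8 a'.val b'.val) = true
  rw [hlt]
  simp

lemma card_eight : Fintype.card P8 = 8 := rfl

lemma bdd_chain : BddAbove {n | ∃ C : Finset P8, IsChain (· ≤ ·) (C : Set P8) ∧ C.card = n} := by
  refine ⟨8, ?_⟩
  rintro n ⟨C, -, rfl⟩
  have := C.card_le_univ
  rwa [card_eight] at this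

lemma height_eq : height P8 = 2 := by
  unfold height
  apply le_antisymm
  · refine csSup_le ⟨0, ∅, by simp, rfl⟩ ?_
    rintro n ⟨C, hC, rfl⟩
    by_contra hcon
    push Not at hcon
    obtain ⟨a, b, c, ha, hb, hc, hab, hac, hbc⟩ := Finset.two_lt_card_iff.1 hcon
    have h1 := hC ha hb hab
    have h2 := hC ha hc hac
    have h3 := hC hb hc hbc
    simp only at h1 h2 h3
    clear hC ha hb hc hcon
    revert a b c
    rintro ⟨a⟩ ⟨b⟩ ⟨c⟩ h1 h2 h3
    have h1' : a ≠ b := fun h => h1 (by rw [h])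
    have h2' : a ≠ c := fun h => h2 (by rw [h])
    have h3' : b ≠ c := fun h => h3 (by rw [h])
    clear h1 h2 h3
    intro h1 h2 h3
    change ((a == b || lt8 a b) = true ∨ (b == a || lt8 b a) = true) at h1
    change ((a == c || lt8 a c) = true ∨ (c == a || lt8 c a) = true) at h2
    change ((b == c || lt8 b c) = true ∨ (c == b || lt8 c b) = true) at h3
    revert a b c
    decide +kernel
  · apply le_csSup bdd_chain
    refine ⟨{⟨2⟩, ⟨4⟩}, ?_, by decide⟩
    intro a ha b hb hab
    simp only [Finset.coe_insert, Finset.coe_singleton, Set.mem_insert_iff,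
      Set.mem_singleton_iff] at ha hb
    rcases ha with rfl | rfl <;> rcases hb with rfl | rfl
    · exact absurd rfl hab
    · exact Or.inl (by decide)
    · exact Or.inr (by decide)
    · exact absurd rfl hab

lemma five_le : 5 ≤ d P8 1 := by
  unfold d
  apply le_csSup
  · refine ⟨8, ?_⟩
    rintro n ⟨A, -, -, rfl⟩
    have := (Finset.univ.biUnion A).card_le_univ
    rwa [card_eight] at this
  · refine ⟨fun _ => {⟨0⟩, ⟨1⟩, ⟨4⟩, ⟨5⟩, ⟨6⟩}, fun i => ?_, fun i j h => ?_, by decide⟩
    · intro a ha b hb hab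
      have key : ∀ a ∈ ({⟨0⟩, ⟨1⟩, ⟨4⟩, ⟨5⟩, ⟨6⟩} : Finset P8),
          ∀ b ∈ ({⟨0⟩, ⟨1⟩, ⟨4⟩, ⟨5⟩, ⟨6⟩} : Finset P8), a ≠ b → ¬ a ≤ b := by
        decide +kernel
      exact key a ha b hb hab
    · exact absurd (Subsingleton.elim i j) h

/-- **Disproof.** A poset with eight elements without induced `P₆` which is not
`d`-decomposable. -/
theorem result : ∃ (P : Type) (_ : PartialOrder P) (_ : DecidableEq P) (_ : Finite P),
    IsEmpty (P6 ↪o P) ∧ ¬ DDecomposable P := by
  refine ⟨P8, inferInstance, inferInstance, inferInstance, ⟨fun f => ?_⟩, ?_⟩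
  · -- the image of `y₂` has three lower elements, the image of `x₂` three upper ones
    have h1 : ∀ y a b c : P8, a ≤ y → b ≤ y → c ≤ y → a ≠ y → b ≠ y → c ≠ y → a ≠ b → a ≠ c →
        b ≠ c → y = ⟨7⟩ := by
      decide +kernel
    have h2 : ∀ y a b c : P8, y ≤ a → y ≤ b → y ≤ c → a ≠ y → b ≠ y → c ≠ y → a ≠ b → a ≠ c →
        b ≠ c → y = ⟨2⟩ := by
      decide +kernel
    have hle : ∀ a b : P6, a ≤ b → f a ≤ f b := fun a b h => f.le_iff_le.2 h
    have hne : ∀ a b : P6, a ≠ b → f a ≠ f b := fun a b h h' => h (f.injective h')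
    have e1 := h1 (f ⟨4⟩) (f ⟨0⟩) (f ⟨1⟩) (f ⟨2⟩) (hle _ _ (by decide)) (hle _ _ (by decide))
      (hle _ _ (by decide)) (hne _ _ (by decide)) (hne _ _ (by decide)) (hne _ _ (by decide))
      (hne _ _ (by decide)) (hne _ _ (by decide)) (hne _ _ (by decide))
    have e2 := h2 (f ⟨1⟩) (f ⟨3⟩) (f ⟨4⟩) (f ⟨5⟩) (hle _ _ (by decide)) (hle _ _ (by decide))
      (hle _ _ (by decide)) (hne _ _ (by decide)) (hne _ _ (by decide)) (hne _ _ (by decide))
      (hne _ _ (by decide)) (hne _ _ (by decide)) (hne _ _ (by decide))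
    have h3 := hle ⟨1⟩ ⟨4⟩ (by decide)
    rw [e1, e2] at h3
    revert h3
    decide
  · rintro ⟨A, hA, hdis, hcov, hcard⟩
    rw [height_eq] at hA hdis hcov hcard
    have c1 := hcard 1 (by decide)
    have c2 : ((Finset.Icc 1 1).biUnion A) = A 1 := by simp
    rw [c2] at c1
    have c3 : 5 ≤ ((A 1).image P8.val).card := by
      rw [Finset.card_image_of_injective _ (fun a b h => by cases a; cases b; simpa using h), c1]
      exact five_le
    have c4 := key _ (anti_of (hA 1 (by decide))) c3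
    have c5 : ((A 1).image P8.val)ᶜ = (A 2).image P8.val := by
      ext x
      rw [Finset.mem_compl, Finset.mem_image, Finset.mem_image]
      constructor
      · intro h
        obtain ⟨i, hi, hx⟩ := hcov ⟨x⟩
        rw [Finset.mem_Icc] at hi
        rcases (by omega : i = 1 ∨ i = 2) with rfl | rfl
        · exact absurd ⟨⟨x⟩, hx, rfl⟩ h
        · exact ⟨⟨x⟩, hx, rfl⟩
      · rintro ⟨y, hy, rfl⟩ ⟨z, hz, hzy⟩
        have hyz : z = y := by cases z; cases y; simpa using hzy
        subst hyz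
        exact (Finset.disjoint_left.1 (hdis 1 (by decide) 2 (by decide) (by decide))) hz hy
    rw [c5, anti_of (hA 2 (by decide))] at c4
    exact absurd c4 (by decide)

end Pool.Agent.Results.MP_28dfab_co.EightElements
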